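import Pool.Agent.Lib.MP_1a91b9_nuT.PL.Sha

/-!
# Theorem G: descent of the `ℓ`-primary part of the Tate-Shafarevich group in Galois extensions
-/

set_option autoImplicit false

namespace Pool.Agent.Lib.MP_1a91b9_nuT.TG

variable [CD]

open WeierstrassCurve NumberField IsDedekindDomain
open Pool.Agent.Lib.MP_1a91b9_nuT.S9 Pool.Agent.Lib.MP_1a91b9_nuT.S5
open Pool.Agent.Lib.MP_1a91b9_nuT.CT
open Pool.Agent.Lib.MP_1a91b9_nuT3.S9 (ShaP)
open scoped Classical

universe u

/-- A cocycle which is trivial over a Galois extension `k'` and whose class is killed by an integer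
prime to the order of `W(k')` is trivial. -/
theorem descend_gal {k k' : Type*} [Field k] [CharZero k] [Field k'] [CharZero k'] [Algebra k k']
    [Normal k k'] (W : WeierstrassCurve k) (j : AlgebraicClosure k ≃ₐ[k] AlgebraicClosure k')
    (n r : ℕ) (hn : ∀ R : Pts W k', n • R = 0) (hnr : n.Coprime r)
    (c : Gal k → Pts W (AlgebraicClosure k)) (hc : c ∈ coc W) (hr : r • c ∈ cob W)
    (P : Pts W (AlgebraicClosure k)) (hP : ∀ τ : Gal k,
      (∀ z : k', τ (j.symm (algebraMap k' _ z)) = j.symm (algebraMap k' _ z)) →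
      c τ = Affine.Point.map (τ : AlgebraicClosure k →ₐ[k] _) P - P) : c ∈ cob W := by
  -- the modified cocycle
  obtain ⟨b, hb⟩ : ∃ b : Gal k → Pts W (AlgebraicClosure k), b = fun τ : Gal k =>
    Affine.Point.map (τ : AlgebraicClosure k →ₐ[k] _) P - P := ⟨_, rfl⟩
  have hbc : b ∈ cob W := ⟨P, fun σ => by rw [hb]⟩
  obtain ⟨c', hc'⟩ : ∃ c' : Gal k → Pts W (AlgebraicClosure k), c' = c - b := ⟨_, rfl⟩
  have hcoc : c' ∈ coc W := by
    rw [hc']
    exact sub_mem hc (cob_le_coc W hbc)
  have hH : ∀ τ : Gal k,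
      (∀ z : k', τ (j.symm (algebraMap k' _ z)) = j.symm (algebraMap k' _ z)) → c' τ = 0 := by
    intro τ h
    have h1 := hP τ h
    rw [hc', Pi.sub_apply, h1, hb, sub_self]
  -- normality
  let alg : Algebra k' (AlgebraicClosure k) :=
    ((j.symm : AlgebraicClosure k' →+* AlgebraicClosure k).comp
      (algebraMap k' (AlgebraicClosure k'))).toAlgebra
  have hmap : ∀ z : k', algebraMap k' (AlgebraicClosure k) z = j.symm (algebraMap k' _ z) :=
    fun z => rfl
  have hst : IsScalarTower k k' (AlgebraicClosure k) := IsScalarTower.of_algebraMap_eq fun x => by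
    rw [hmap, ← IsScalarTower.algebraMap_apply k k', j.symm.commutes]
  have hnorm : ∀ σ : Gal k, ∀ z : k', ∃ z' : k',
      σ (j.symm (algebraMap k' _ z)) = j.symm (algebraMap k' _ z') := fun σ z =>
    ⟨σ.restrictNormal k' z, by
      have h := AlgEquiv.restrictNormal_commutes σ k' z
      rw [hmap, hmap] at h
      exact h.symm⟩
  have hfix : ∀ σ τ : Gal k,
      (∀ z : k', τ (j.symm (algebraMap k' _ z)) = j.symm (algebraMap k' _ z)) →
      Affine.Point.map (τ : AlgebraicClosure k →ₐ[k] _) (c' σ) = c' σ := by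
    intro σ τ hτ
    have h1 : ∀ z : k', (σ⁻¹ * τ * σ) (j.symm (algebraMap k' _ z)) =
        j.symm (algebraMap k' _ z) := by
      intro z
      obtain ⟨z', hz'⟩ := hnorm σ z
      rw [AlgEquiv.mul_apply, AlgEquiv.mul_apply, hz', hτ, ← hz', ← AlgEquiv.mul_apply,
        inv_mul_cancel, AlgEquiv.one_apply]
    have h2 := hcoc.2 σ (σ⁻¹ * τ * σ)
    rw [hH _ h1, _root_.map_zero, add_zero] at h2
    have h3 := hcoc.2 τ σ
    rw [hH _ hτ, zero_add] at h3
    have h4 : σ * (σ⁻¹ * τ * σ) = τ * σ := by group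
    rw [h4, h3] at h2
    exact h2
  have hkill : ∀ σ : Gal k, n • c' σ = 0 := by
    intro σ
    have hfp : ∃ Q : Pts W k', up W k' (AlgebraicClosure k') Q =
        Affine.Point.map (j : AlgebraicClosure k →ₐ[k] AlgebraicClosure k') (c' σ) := by
      refine fixed_pt W _ fun ρ => ?_
      set τ : Gal k := (j.trans (ρ.restrictScalars k)).trans j.symm with hτ
      have hτy : ∀ z : k', τ (j.symm (algebraMap k' _ z)) = j.symm (algebraMap k' _ z) := by
        intro z
        change j.symm (ρ (j (j.symm (algebraMap k' _ z)))) = _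
        rw [j.apply_symm_apply, ρ.commutes]
      have h4 := hfix σ τ hτy
      conv_rhs => rw [← h4]
      rw [Affine.Point.map_map, Affine.Point.map_map]
      congr 2
      ext z
      change ρ (j z) = j (j.symm (ρ (j z)))
      rw [j.apply_symm_apply]
    obtain ⟨Q, hQ⟩ := hfp
    have h4 : Affine.Point.map (j : AlgebraicClosure k →ₐ[k] AlgebraicClosure k')
        (n • c' σ) = 0 := by
      rw [_root_.map_nsmul, ← hQ, ← _root_.map_nsmul, hn, _root_.map_zero]
    have hinj := Affine.Point.map_injective (W' := W)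
      (j : AlgebraicClosure k →ₐ[k] AlgebraicClosure k')
    apply hinj
    rw [h4, _root_.map_zero]
  have hn0 : n • c' = 0 := funext fun σ => hkill σ
  have hr0 : r • c' ∈ cob W := by
    rw [hc', smul_sub]
    exact sub_mem hr (nsmul_mem hbc r)
  obtain ⟨u, v, huv⟩ := Nat.isCoprime_iff_coprime.2 hnr
  have h1 : c' = u • (n • c') + v • (r • c') := by
    rw [← natCast_zsmul c' n, ← natCast_zsmul c' r, smul_smul, smul_smul, ← add_smul, huv,
      one_smul]
  have h2 : c' ∈ cob W := by
    rw [h1, hn0, smul_zero, zero_add]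
    exact zsmul_mem hr0 v
  have h3 : c = c' + b := by rw [hc', sub_add_cancel]
  rw [h3]
  exact add_mem h2 hbc

variable {N N' : Type u} [Field N] [NumberField N] [Field N'] [NumberField N'] [Algebra N N']


end Pool.Agent.Lib.MP_1a91b9_nuT.TG
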