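import Pool.Agent.Lib.MP_1a91b9_nuT.TG.Step
import Pool.Agent.Lib.MP_1a91b9_nuT.Nrm

/-!
# Theorem G, Part 9: the character data inside the field of a torsion point
-/

set_option autoImplicit false

namespace Pool.Agent.Lib.MP_1a91b9_nuT.TG

variable [CD]

open NumberField IsDedekindDomain
open Pool.Agent.Lib.MP_1a91b9_nt (nrm nrm_eq)

universe u

/-- the norm of `μ` -/
noncomputable def nAb (μ : 𝓞 K) : ℕ := Ideal.absNorm (Ideal.span {μ})

theorem nAb_ne {μ : 𝓞 K} (h : μ ≠ 0) : nAb μ ≠ 0 := by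
  rw [nAb, Ne, Ideal.absNorm_eq_zero_iff, Ideal.span_singleton_eq_bot]
  exact h


theorem dvd_nAb (μ : 𝓞 K) : μ ∣ (nAb μ : 𝓞 K) := ⟨cj μ, (mul_cj μ).symm⟩


/-- Fermat in the residue field of a place -/
theorem fermat_place {k : Type u} [Field k] [NumberField k] (v : HeightOneSpectrum (𝓞 k))
    (y : 𝓞 k) : y ^ nrm v - y ∈ v.asIdeal := by
  classical
  have i1 : v.asIdeal.IsMaximal := v.isMaximal
  letI : Field (𝓞 k ⧸ v.asIdeal) := Ideal.Quotient.field _
  have i2 : Finite (𝓞 k ⧸ v.asIdeal) := Ideal.finiteQuotientOfFreeOfNeBot _ v.ne_bot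
  letI : Fintype (𝓞 k ⧸ v.asIdeal) := Fintype.ofFinite _
  have h1 : Fintype.card (𝓞 k ⧸ v.asIdeal) = nrm v := by
    rw [← Nat.card_eq_fintype_card, nrm_eq]
    rfl
  rw [← Ideal.Quotient.eq_zero_iff_mem, map_sub, map_pow, ← h1, FiniteField.pow_card, sub_self]

theorem val_one_of_not_mem {F : Type u} [Field F] [NumberField F]
    (w : HeightOneSpectrum (𝓞 F)) (n : ℕ) (h : (n : 𝓞 F) ∉ w.asIdeal) :
    w.valuation F (n : F) = 1 := by
  have e : algebraMap (𝓞 F) F (n : 𝓞 F) = (n : F) := map_natCast (algebraMap (𝓞 F) F) n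
  rw [← e]
  refine le_antisymm (w.valuation_le_one _) (not_lt.1 fun h1 => h ?_)
  exact (w.valuation_lt_one_iff_mem (K := F) (n : 𝓞 F)).1 h1

end Pool.Agent.Lib.MP_1a91b9_nuT.TG
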