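import Pool.Agent.Lib.MP_1a91b9_nuT.BaseK
import Pool.Agent.Lib.MP_1a91b9_nt.QuadCount
import Pool.Agent.Lib.MP_1a91b9_nt.Residue

/-!
# The residue field of a place
-/

set_option autoImplicit false

namespace Pool.Agent.Lib.MP_1a91b9_nuT.TG

variable [CD]

open NumberField IsDedekindDomain
open Pool.Agent.Lib.MP_1a91b9_nt

variable {F : Type} [Field F] [NumberField F]


/-- the residue field of a place -/
theorem exists_res_equiv (q : HeightOneSpectrum (𝓞 F)) :
    Nonempty ((𝓞 F ⧸ q.asIdeal) ≃+* IsLocalRing.ResidueField (q.adicCompletionIntegers F)) := by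
  have e := RingHom.quotientKerEquivOfSurjective (residue_surjective q)
  exact ⟨(Ideal.quotEquivOfEq (residue_ker q).symm).trans e⟩


end Pool.Agent.Lib.MP_1a91b9_nuT.TG
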