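import Pool.Agent.Lib.MP_1a91b9_nuT3.S8.Gal

/-!
# Theorem G: not ramified in a subfield
-/

set_option autoImplicit false

namespace Pool.Agent.Lib.MP_1a91b9_nuT.TG

variable [CD]

open NumberField IsDedekindDomain

/-- not ramified in a subfield -/
theorem not_ram_down {ℓ : ℕ} {N F : Type*} [Field N] [NumberField N] [Algebra K N] [Field F]
    [NumberField F] [Algebra K F] [Algebra N F] [IsScalarTower K N F]
    (hu : ∀ q : HeightOneSpectrum (𝓞 K), (ℓ : 𝓞 K) ∈ q.asIdeal → ¬ MP_1a91b9_nuT3.Ram F q) :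
    ∀ q : HeightOneSpectrum (𝓞 K), (ℓ : 𝓞 K) ∈ q.asIdeal → ¬ MP_1a91b9_nuT3.Ram N q :=
  fun q hq h => hu q hq (MP_1a91b9_nuT3.S8.ram_up q h)

end Pool.Agent.Lib.MP_1a91b9_nuT.TG
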