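import Pool.Agent.Lib.MP_1a91b9_nuT.DS.Defs
import Pool.Agent.Lib.MP_1a91b9_nuT3.Base

/-!
# Theorem G, Part 8: the analytic side of the towers
-/

set_option autoImplicit false

namespace Pool.Agent.Lib.MP_1a91b9_nuT.TG

variable [CD]

open NumberField IsDedekindDomain DB DS

universe u

/-- nothing above `ℓ` ramifies if `ℓ` has order one at all places -/
theorem not_ram_of_unr {ℓ : ℕ} {F : Type u} [Field F] [NumberField F] [Algebra K F]
    (h : UnrL ℓ F) (hℓ : ℓ ≠ 0) (q : HeightOneSpectrum (𝓞 K)) (hq : (ℓ : 𝓞 K) ∈ q.asIdeal) :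
    ¬ MP_1a91b9_nuT3.Ram F q := by
  rintro ⟨w, hw⟩
  have h1 : algebraMap (𝓞 K) (𝓞 F) (ℓ : 𝓞 K) ∈ w.asIdeal ^ 2 := hw (Ideal.mem_map_of_mem _ hq)
  rw [map_natCast] at h1
  have hl0 : (ℓ : F) ≠ 0 := Nat.cast_ne_zero.2 hℓ
  have e0 : algebraMap (𝓞 F) F (ℓ : 𝓞 F) = (ℓ : F) := map_natCast (algebraMap (𝓞 F) F) ℓ
  have h2 : w.valuation F (ℓ : F) ≤ WithZero.exp (-((2 : ℕ) : ℤ)) := by
    rw [← e0]
    change w.valuation F (algebraMap (𝓞 F) F (ℓ : 𝓞 F)) ≤ _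
    rw [w.valuation_of_algebraMap (K := F), w.intValuation_le_pow_iff_mem]
    exact h1
  have h3 : 2 ≤ od w (ℓ : F) := by
    rw [val_eq w hl0, WithZero.exp_le_exp] at h2
    push_cast at h2
    omega
  have h4 : w.valuation F (ℓ : F) < 1 := (val_lt_one_iff w hl0).2 (by omega)
  have h5 := h w h4
  omega

end Pool.Agent.Lib.MP_1a91b9_nuT.TG
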