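import Pool.Agent.Lib.MP_1a91b9_nuT.PT.Tow

/-!
# The isomorphic copies of a field
-/

set_option autoImplicit false

namespace Pool.Agent.Lib.MP_1a91b9_nuT.TG

variable [CD]

open NumberField

universe u

/-- The isomorphic copies of `F₀`. -/
def Cpy (F₀ : Type u) [Field F₀] [NumberField F₀] [Algebra K F₀] (F : Type u) [Field F]
    [NumberField F] [Algebra K F] : Prop := Nonempty (F₀ ≃ₐ[K] F)

end Pool.Agent.Lib.MP_1a91b9_nuT.TG
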