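import Pool.Agent.Lib.MP_1a91b9_nuT.PT.Tow
import Pool.Agent.Lib.MP_1a91b9_nuT.DS.Defs
import Pool.Agent.Lib.MP_1a91b9_nuT.S5.Places
import Pool.Agent.Lib.MP_1a91b9_nuT.DB.Od

/-!
# Theorem G: the hypotheses of the `ℓ`-part of the formula over the subfields of `L`
-/

set_option autoImplicit false

namespace Pool.Agent.Lib.MP_1a91b9_nuT.TG

variable [CD]

open NumberField IsDedekindDomain DB
open Pool.Agent.Lib.MP_1a91b9_nuT.S5 (below mem_below exists_above below_below)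
open Pool.Agent.Lib.MP_1a91b9_nuT.PT (cop_pow)

universe u

theorem cop_powN {ℓ : ℕ} (hℓ : ℓ.Prime) {a : 𝓞 K} (h : IsCoprime (a - 1) (ℓ : 𝓞 K)) {n f : ℕ}
    (hf : f ∣ ℓ ^ n) : IsCoprime (a ^ f - 1) (ℓ : 𝓞 K) := by
  obtain ⟨k, -, rfl⟩ := (Nat.dvd_prime_pow hℓ).1 hf
  clear hf
  induction k with
  | zero => rwa [pow_zero, pow_one]
  | succ k ih =>
    rw [pow_succ, pow_mul]
    exact cop_pow hℓ ih dvd_rfl


/-- unramified in the extension, hence below -/
theorem unrL_down {ℓ : ℕ} (hℓ : ℓ ≠ 0) {N F : Type u} [Field N] [NumberField N] [Field F]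
    [NumberField F] [Algebra N F] (h : DS.UnrL ℓ F) : DS.UnrL ℓ N := by
  intro v hv
  obtain ⟨w, hw'⟩ := exists_above N F v
  have hw : w.under (𝓞 N) = v := hw'
  have h1 : w.valuation F (ℓ : F) < 1 := by
    have h2 := (val_map_lt w (ℓ : N)).2 (by rw [hw]; exact hv)
    rwa [map_natCast] at h2
  have h2 := h w h1
  have h3 := od_map w (ℓ : N)
  rw [map_natCast, h2, hw] at h3
  have hv' := (val_lt_one_iff v (Nat.cast_ne_zero.2 hℓ)).1 hv
  exact Int.eq_one_of_mul_eq_one_left hv'.le h3.symm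

end Pool.Agent.Lib.MP_1a91b9_nuT.TG
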