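import Pool.Agent.Lib.MP_1a91b9_nuT.TG.Abel
import Pool.Agent.Lib.MP_1a91b9_nuT.D6.Defs

/-!
# Theorem G, Part 9: descent of the nonvanishing in abelian extensions
-/

set_option autoImplicit false

namespace Pool.Agent.Lib.MP_1a91b9_nuT.TG

variable [CD]

open NumberField IsDedekindDomain Module
open Pool.Agent.Lib.MP_1a91b9_nt (nrm nrm_eq)
open Pool.Agent.Lib.MP_1a91b9_nuG
open Pool.Agent.Lib.MP_1a91b9_nuT.S4 (Over)

universe u

section
variable {F F' : Type u} [Field F] [NumberField F] [Field F'] [NumberField F'] [Algebra F F']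

theorem one_cases [IsGalois F F'] (hL : Module.finrank F F' = 1)
    (v : HeightOneSpectrum (𝓞 F)) : Fintype.card (Over F' v) = 1 ∧
      ∀ w : Over F' v, w.1.asIdeal.inertiaDeg (𝓞 F) = 1 ∧ nrm w.1 = nrm v := by
  have hvp : v.asIdeal.IsPrime := v.isPrime
  have hvm : v.asIdeal.IsMaximal := v.isMaximal
  have hfund := Ideal.ncard_primesOver_mul_ramificationIdxIn_mul_inertiaDegIn v.asIdeal (𝓞 F')
    Gal(F'/F)
  have hcard : Nat.card Gal(F'/F) = 1 := by
    rw [IsGalois.card_aut_eq_finrank, hL]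
  rw [hcard] at hfund
  have hc : Fintype.card (Over F' v) = (v.asIdeal.primesOver (𝓞 F')).ncard := by
    rw [← Pool.Agent.Lib.MP_1a91b9_nt.card_over_eq, Nat.card_eq_fintype_card]
  have h1 := Nat.eq_one_of_mul_eq_one_right hfund
  have h2 := Nat.eq_one_of_mul_eq_one_left (Nat.eq_one_of_mul_eq_one_left hfund)
  refine ⟨by rw [hc, h1], fun w => ?_⟩
  have i1 : w.1.asIdeal.IsPrime := w.1.isPrime
  have i2 : w.1.asIdeal.LiesOver v.asIdeal := ⟨w.2.symm⟩
  have h3 : w.1.asIdeal.inertiaDeg (𝓞 F) = 1 := by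
    rw [← Ideal.inertiaDegIn_eq_inertiaDeg v.asIdeal w.1.asIdeal Gal(F'/F)]
    exact h2
  refine ⟨h3, ?_⟩
  rw [nrm_eq, nrm_eq, ← Ideal.absNorm_pow_inertiaDeg v.asIdeal w.1.asIdeal, h3, pow_one]

end

/-- The dual of the ring of integers is integral away from the different. -/
theorem uq_of_coprime (q : ℕ) (F : Type u) [Field F] [NumberField F] [Algebra K F]
    (h : (Ideal.absNorm (differentIdeal (𝓞 K) (𝓞 F))).Coprime q) : Ell.UQ q F := by
  refine ⟨Ideal.absNorm (differentIdeal (𝓞 K) (𝓞 F)), h, ?_⟩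
  intro v hv
  have h1 : (algebraMap (𝓞 F) F) (Ideal.absNorm (differentIdeal (𝓞 K) (𝓞 F)) : 𝓞 F) ∈
      IsLocalization.coeSubmodule F (differentIdeal (𝓞 K) (𝓞 F)) :=
    Submodule.mem_map_of_mem (Ideal.absNorm_mem _)
  rw [coeSubmodule_differentIdeal (𝓞 K) K, Submodule.mem_div_iff_forall_mul_mem] at h1
  have h2 : v ∈ Submodule.traceDual (𝓞 K) K (1 : Submodule (𝓞 F) F) := by
    rw [Submodule.mem_traceDual]
    intro a ha
    obtain ⟨z, rfl⟩ := Submodule.mem_one.1 ha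
    obtain ⟨c, hc⟩ := hv z
    exact ⟨c, by rw [Algebra.traceForm_apply]; exact hc.symm⟩
  obtain ⟨z, hz⟩ := Submodule.mem_one.1 (h1 v h2)
  rw [map_natCast] at hz
  rw [← hz]
  exact RingOfIntegers.isIntegral_coe z


end Pool.Agent.Lib.MP_1a91b9_nuT.TG
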