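import Pool.Agent.Lib.MP_1a91b9_nuT.BaseK

/-!
# Theorem G, Part 9: the compositum with the field of the torsion point
-/

set_option autoImplicit false

namespace Pool.Agent.Lib.MP_1a91b9_nuT.TG

variable [CD]

open NumberField Module IntermediateField

universe u

/-- The compositum of `F = N F₀` and the Galois extension `L'` of `K` which contains `F₀`. -/
theorem exists_comp (N F F₀ L' : Type u) [Field N] [NumberField N] [Algebra K N] [Field F]
    [NumberField F] [Algebra K F] [Field F₀] [NumberField F₀] [Algebra K F₀] [Field L']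
    [NumberField L'] [Algebra K L'] [Algebra N F] [Algebra F₀ F] [Algebra F₀ L']
    [IsScalarTower K N F] [IsScalarTower K F₀ F] [IsScalarTower K F₀ L'] [IsGalois K L']
    (hgen : IntermediateField.adjoin N (Set.range (algebraMap F₀ F)) = ⊤) :
    ∃ (L : Type u) (_ : Field L) (_ : NumberField L) (_ : Algebra K L) (_ : Algebra N L)
      (_ : Algebra F L) (_ : Algebra L' L), IsScalarTower K N L ∧ IsScalarTower K F L ∧
      IsScalarTower N F L ∧ IsScalarTower K L' L ∧ IsGalois N L ∧
      ∀ σ : Gal(L/N), (∀ x : L', σ (algebraMap L' L x) = algebraMap L' L x) → σ = 1 := by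
  have hfd : FiniteDimensional K L' := Module.Finite.of_restrictScalars_finite ℚ K L'
  have hfd2 : FiniteDimensional F₀ L' := Module.Finite.of_restrictScalars_finite ℚ F₀ L'
  have hfd3 : FiniteDimensional N F := Module.Finite.of_restrictScalars_finite ℚ N F
  have hfd4 : FiniteDimensional K N := Module.Finite.of_restrictScalars_finite ℚ K N
  let Ω := AlgebraicClosure F
  have s1 : IsScalarTower K F Ω := inferInstance
  have s2 : IsScalarTower N F Ω := inferInstance
  have s3 : IsScalarTower F₀ F Ω := inferInstance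
  have s4 : IsScalarTower K N Ω := IsScalarTower.of_algebraMap_eq fun x => by
    rw [IsScalarTower.algebraMap_apply K F Ω, IsScalarTower.algebraMap_apply K N F,
      ← IsScalarTower.algebraMap_apply N F Ω]
  have s5 : IsScalarTower K F₀ Ω := IsScalarTower.of_algebraMap_eq fun x => by
    rw [IsScalarTower.algebraMap_apply K F Ω, IsScalarTower.algebraMap_apply K F₀ F,
      ← IsScalarTower.algebraMap_apply F₀ F Ω]
  have hal : Algebra.IsAlgebraic N Ω := Algebra.IsAlgebraic.trans N F Ω
  have hac : IsAlgClosure N Ω := ⟨inferInstance, hal⟩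
  have hno : Normal N Ω := IsAlgClosure.normal N Ω
  let ι : L' →ₐ[F₀] Ω := IsAlgClosed.lift
  let ιK : L' →ₐ[K] Ω := ι.restrictScalars K
  obtain ⟨θ, hθ⟩ := Field.exists_primitive_element K L'
  let L : IntermediateField N Ω := N⟮ι θ⟯
  have hint : IsIntegral N (ι θ) := (hal.isAlgebraic (ι θ)).isIntegral
  have hfL : FiniteDimensional N L := adjoin.finiteDimensional hint
  have hnf : NumberField L := NumberField.of_module_finite N L
  have hmem : ∀ x : L', ι x ∈ L := by
    intro x
    have h1 : x ∈ (K⟮θ⟯ : IntermediateField K L') := by rw [hθ]; exact mem_top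
    have h2 : ιK x ∈ (K⟮θ⟯ : IntermediateField K L').map ιK := ⟨x, h1, rfl⟩
    rw [adjoin_map, Set.image_singleton] at h2
    have h3 : K⟮ιK θ⟯ ≤ L.restrictScalars K := by
      rw [adjoin_simple_le_iff]
      exact mem_adjoin_simple_self N (ι θ)
    exact h3 h2
  have hmemF : ∀ y : F, algebraMap F Ω y ∈ L := by
    intro y
    have h1 : y ∈ IntermediateField.adjoin N (Set.range (algebraMap F₀ F)) := by
      rw [hgen]; exact mem_top
    have h2 : IsScalarTower.toAlgHom N F Ω y ∈ (IntermediateField.adjoin N
        (Set.range (algebraMap F₀ F))).map (IsScalarTower.toAlgHom N F Ω) := ⟨y, h1, rfl⟩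
    rw [adjoin_map] at h2
    have h3 : IntermediateField.adjoin N
        ((IsScalarTower.toAlgHom N F Ω) '' (Set.range (algebraMap F₀ F))) ≤ L := by
      rw [adjoin_le_iff]
      rintro _ ⟨_, ⟨x, rfl⟩, rfl⟩
      have h4 : IsScalarTower.toAlgHom N F Ω (algebraMap F₀ F x) = ι (algebraMap F₀ L' x) := by
        rw [ι.commutes]
        exact (IsScalarTower.algebraMap_apply F₀ F Ω x).symm
      rw [h4]
      exact hmem _
    exact h3 h2
  let aFL : Algebra F L := ((algebraMap F Ω).codRestrict L.toSubalgebra.toSubring hmemF).toAlgebra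
  let aL'L : Algebra L' L :=
    (ι.toRingHom.codRestrict L.toSubalgebra.toSubring hmem).toAlgebra
  have hcF : ∀ y : F, ((algebraMap F L y : L) : Ω) = algebraMap F Ω y := fun y => rfl
  have hcL : ∀ y : L', ((algebraMap L' L y : L) : Ω) = ι y := fun y => rfl
  have hcN : ∀ y : N, ((algebraMap N L y : L) : Ω) = algebraMap N Ω y := fun y => rfl
  have hcK : ∀ y : K, ((algebraMap K L y : L) : Ω) = algebraMap K Ω y := fun y => rfl
  have t1 : IsScalarTower K N L := IsScalarTower.of_algebraMap_eq fun x => Subtype.ext (by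
    rw [hcK, hcN]
    exact IsScalarTower.algebraMap_apply K N Ω x)
  have t2 : IsScalarTower K F L := IsScalarTower.of_algebraMap_eq fun x => Subtype.ext (by
    rw [hcK, hcF]
    exact IsScalarTower.algebraMap_apply K F Ω x)
  have t3 : IsScalarTower N F L := IsScalarTower.of_algebraMap_eq fun x => Subtype.ext (by
    rw [hcN, hcF]
    exact IsScalarTower.algebraMap_apply N F Ω x)
  have t4 : IsScalarTower K L' L := IsScalarTower.of_algebraMap_eq fun x => Subtype.ext (by
    rw [hcK, hcL]
    exact (ιK.commutes x).symm)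
  refine ⟨L, inferInstance, hnf, inferInstance, inferInstance, aFL, aL'L, t1, t2, t3, t4, ?_, ?_⟩
  · -- the extension is Galois
    have hnorm : Normal N L := by
      rw [normal_iff_forall_map_le]
      intro σ
      change (N⟮ι θ⟯).map σ ≤ L
      rw [adjoin_map, Set.image_singleton, adjoin_simple_le_iff]
      have hE : Normal K ιK.fieldRange :=
        Normal.of_algEquiv (AlgEquiv.ofInjectiveField ιK)
      let f : ιK.fieldRange →ₐ[K] Ω := (σ.restrictScalars K).comp ιK.fieldRange.val
      have h1 : f.fieldRange = ιK.fieldRange := AlgHom.fieldRange_of_normal f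
      have h2 : σ (ι θ) ∈ f.fieldRange := ⟨⟨ι θ, ⟨θ, rfl⟩⟩, rfl⟩
      rw [h1] at h2
      obtain ⟨y, hy⟩ := h2
      rw [← hy]
      exact hmem y
    exact ⟨⟩
  · intro σ hσ
    have h1 : (σ : L →ₐ[N] L) = AlgHom.id N L := by
      apply IntermediateField.algHom_ext_of_eq_adjoin (S := L) (s := {ι θ}) (hS := rfl)
      intro x hx
      rw [Set.mem_singleton_iff] at hx
      have h2 := hσ θ
      have h3 : algebraMap L' L θ = (⟨ι θ, hmem θ⟩ : L) := rfl
      subst hx
      rw [h3] at h2
      exact h2
    ext x
    have h2 := DFunLike.congr_fun h1 x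
    exact congrArg Subtype.val h2

end Pool.Agent.Lib.MP_1a91b9_nuT.TG
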