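import Pool.Agent.Lib.MP_1a91b9_nuT.TG.Analytic
import Pool.Agent.Lib.MP_1a91b9_nuG.RayC
import Pool.Agent.Lib.MP_1a91b9_nuT.S4.LComp

/-!
# Theorem G, Part 9: descent of the nonvanishing in a cyclic extension of prime degree

`RayData p F' m x`: the character data of `F'/F`, Galois of prime degree `p`, with an arbitrary
modulus `m` divisible by the ramified places. `lgood_desc`: if the series of `F'` continues and
does not vanish at `1`, the same is true for `F`.
-/

set_option autoImplicit false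

namespace Pool.Agent.Lib.MP_1a91b9_nuT.TG

variable [CD]

open NumberField IsDedekindDomain Pool.Agent.Lib.MP_1a91b9_nt Pool.Agent.Lib.MP_1a91b9_nuT
  Pool.Agent.Lib.MP_1a91b9_nuT.S4 Pool.Agent.Lib.MP_1a91b9_nuG

universe u

section
variable {F F' : Type u} [Field F] [NumberField F] [Field F'] [NumberField F'] [Algebra F F']
  {p : ℕ} [hp : Fact p.Prime]

/-- The character data of a cyclic extension of prime degree `p`, with modulus `m`. -/
structure RayData (p : ℕ) (F' : Type u) [Field F'] [NumberField F'] [Algebra F F']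
    (m : Ideal (𝓞 F)) (x : HeightOneSpectrum (𝓞 F) → ZMod p) : Prop where
  unr : ∀ v : HeightOneSpectrum (𝓞 F), ¬ m ≤ v.asIdeal → ¬ Ram F' v
  split : ∀ v : HeightOneSpectrum (𝓞 F), ¬ m ≤ v.asIdeal →
    (x v = 0 ↔ Fintype.card (Over F' v) = p)
  recip : ∀ z : 𝓞 F, z ≠ 0 → z - 1 ∈ m → addI x (Ideal.span {z}) = 0

open Classical in
/-- the `j`-th character modulo `m` -/
noncomputable def chr (x : HeightOneSpectrum (𝓞 F) → ZMod p) (m : Ideal (𝓞 F)) (j : ZMod p)
    (I : Ideal (𝓞 F)) : ℂ :=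
  if IsCoprime I m then ZMod.stdAddChar (j * addI x I) else 0

theorem chr_of {x : HeightOneSpectrum (𝓞 F) → ZMod p} {m : Ideal (𝓞 F)} {j : ZMod p}
    {I : Ideal (𝓞 F)} (h : IsCoprime I m) : chr x m j I = ZMod.stdAddChar (j * addI x I) :=
  if_pos h

theorem chr_of_not {x : HeightOneSpectrum (𝓞 F) → ZMod p} {m : Ideal (𝓞 F)} {j : ZMod p}
    {I : Ideal (𝓞 F)} (h : ¬ IsCoprime I m) : chr x m j I = 0 := if_neg h

theorem chr_one (x : HeightOneSpectrum (𝓞 F) → ZMod p) (m : Ideal (𝓞 F)) (j : ZMod p) :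
    chr x m j 1 = 1 := by
  rw [chr_of isCoprime_one_left, addI_one, mul_zero, AddChar.map_zero_eq_one]

theorem chr_mul (x : HeightOneSpectrum (𝓞 F) → ZMod p) {m : Ideal (𝓞 F)} (hm1 : m ≠ 1)
    (j : ZMod p) (I J : Ideal (𝓞 F)) : chr x m j (I * J) = chr x m j I * chr x m j J := by
  by_cases hI : IsCoprime I m
  · by_cases hJ : IsCoprime J m
    · rw [chr_of (hI.mul_left hJ), chr_of hI, chr_of hJ,
        addI_mul x I J (ne_zero_of_coprime hm1 hI) (ne_zero_of_coprime hm1 hJ), mul_add,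
        AddChar.map_add_eq_mul]
    · rw [chr_of_not hJ, mul_zero, chr_of_not fun h => hJ h.of_mul_left_right]
  · rw [chr_of_not hI, zero_mul, chr_of_not fun h => hI h.of_mul_left_left]

theorem norm_chr_le (x : HeightOneSpectrum (𝓞 F) → ZMod p) (m : Ideal (𝓞 F)) (j : ZMod p)
    (I : Ideal (𝓞 F)) : ‖chr x m j I‖ ≤ 1 := by
  by_cases hI : IsCoprime I m
  · rw [chr_of hI, ZMod.stdAddChar_apply, Circle.norm_coe]
  · rw [chr_of_not hI, norm_zero]
    exact zero_le_one

theorem chr_zero (x : HeightOneSpectrum (𝓞 F) → ZMod p) (m I : Ideal (𝓞 F)) :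
    chr x m 0 I = indC m I := by
  by_cases hI : IsCoprime I m
  · rw [chr_of hI, indC_of hI, zero_mul, AddChar.map_zero_eq_one]
  · rw [chr_of_not hI, indC_of_not hI]

section
variable {m : Ideal (𝓞 F)} {x : HeightOneSpectrum (𝓞 F) → ZMod p} (hx : RayData p F' m x)
include hx

theorem RayData.span_eq (z z' y : 𝓞 F) (hm1 : m ≠ 1) (hz : z ≠ 0) (hz' : z' ≠ 0)
    (e1 : z * y - 1 ∈ m) (e2 : z' * y - 1 ∈ m) :
    addI x (Ideal.span {z}) = addI x (Ideal.span {z'}) := by
  have hy : y ≠ 0 := by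
    rintro rfl
    apply hm1
    rw [Ideal.one_eq_top, Ideal.eq_top_iff_one]
    rw [mul_zero, zero_sub] at e1
    exact m.neg_mem_iff.mp e1
  have r1 := hx.recip (z * y) (mul_ne_zero hz hy) e1
  have r2 := hx.recip (z' * y) (mul_ne_zero hz' hy) e2
  rw [addI_span_mul x z y hz hy] at r1
  rw [addI_span_mul x z' y hz' hy] at r2
  exact add_right_cancel (r1.trans r2.symm)

/-- the additive function is a ray class invariant -/
theorem RayData.ray (hm0 : m ≠ 0) (hm1 : m ≠ 1) (I J : Ideal (𝓞 F)) (hI : IsCoprime I m)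
    (h : RayEq m I J) : addI x I = addI x J := by
  obtain ⟨b, z, z', hb, hz, hz', h1, h2, h3, h4⟩ := h.normalize m hm0
  have hI0 : I ≠ 0 := ne_zero_of_coprime hm1 hI
  have hJ0 : J ≠ 0 := by
    intro h0
    rw [h0, zero_mul, Ideal.zero_eq_bot, eq_comm, Ideal.span_singleton_eq_bot] at h2
    exact hz' h2
  have hzm : IsCoprime (Ideal.span {z}) m := by
    rw [← h1]
    exact hI.mul_left h4
  obtain ⟨y, e1, e2⟩ := exists_inv_mod m z z' hzm (Ideal.mul_le_left h3)
  have h5 := hx.span_eq z z' y hm1 hz hz' e1 e2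
  rw [← h1, ← h2, addI_mul _ _ _ hI0 hb, addI_mul _ _ _ hJ0 hb] at h5
  exact add_right_cancel h5

theorem RayData.chr_ray (hm0 : m ≠ 0) (hm1 : m ≠ 1) (j : ZMod p) (I J : Ideal (𝓞 F))
    (h : RayEq m I J) : chr x m j I = chr x m j J := by
  by_cases hI : IsCoprime I m
  · rw [chr_of hI, chr_of (h.coprime hI), hx.ray hm0 hm1 I J hI h]
  · rw [chr_of_not hI, chr_of_not fun hJ => hI (h.symm.coprime hJ)]

end

end

section
variable {F F' : Type u} [Field F] [NumberField F] [Field F'] [NumberField F'] [Algebra F F']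

theorem coprime_map_iff (m : Ideal (𝓞 F)) (v : HeightOneSpectrum (𝓞 F)) (w : Over F' v) :
    IsCoprime w.1.asIdeal (m.map (algebraMap (𝓞 F) (𝓞 F'))) ↔ ¬ m ≤ v.asIdeal := by
  have hwm : w.1.asIdeal.IsMaximal := w.1.isMaximal
  have h1 : m.map (algebraMap (𝓞 F) (𝓞 F')) ≤ w.1.asIdeal ↔ m ≤ v.asIdeal := by
    rw [Ideal.map_le_iff_le_comap]
    have h2 : Ideal.comap (algebraMap (𝓞 F) (𝓞 F')) w.1.asIdeal = v.asIdeal := w.2
    rw [h2]
  rw [← h1, Ideal.isCoprime_iff_sup_eq]
  constructor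
  · intro h2 h3
    rw [sup_eq_left.mpr h3] at h2
    exact w.1.isPrime.ne_top h2
  · intro h2
    by_contra h3
    apply h2
    have h4 := hwm.eq_of_le h3 le_sup_left
    rw [h4]
    exact le_sup_right


end


end Pool.Agent.Lib.MP_1a91b9_nuT.TG
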