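import Pool.Agent.Lib.MP_1a91b9_nuT.TG.Step

/-!
# Theorem G, Part 9: descent of the unit property in a cyclic extension of prime degree
-/

set_option autoImplicit false

namespace Pool.Agent.Lib.MP_1a91b9_nuT.TG

variable [CD]

open NumberField IsDedekindDomain Pool.Agent.Lib.MP_1a91b9_nt Pool.Agent.Lib.MP_1a91b9_nuT
  Pool.Agent.Lib.MP_1a91b9_nuT.S4 Pool.Agent.Lib.MP_1a91b9_nuG

universe u

theorem isIntegral_chr {F : Type u} [Field F] [NumberField F] {p : ℕ} [hp : Fact p.Prime]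
    (x : HeightOneSpectrum (𝓞 F) → ZMod p) (m : Ideal (𝓞 F)) (j : ZMod p)
    (I : Ideal (𝓞 F)) : IsIntegral ℤ (chr x m j I) := by
  by_cases hI : IsCoprime I m
  · rw [chr_of hI]
    refine IsIntegral.of_pow hp.out.pos (n := p) ?_
    rw [← AddChar.map_nsmul_eq_pow, nsmul_eq_mul, CharP.cast_eq_zero, zero_mul,
      AddChar.map_zero_eq_one]
    exact isIntegral_one
  · rw [chr_of_not hI]
    exact isIntegral_zero

/-- a product of elements of valuation at most one -/
theorem one_of_prod {Γ : Type*} [LinearOrderedCommGroupWithZero Γ] {ι : Type*} [Fintype ι]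
    (f : ι → Γ) (h : ∀ i, f i ≤ 1) (hp : ∏ i, f i = 1) (i : ι) : f i = 1 := by
  classical
  refine le_antisymm (h i) ?_
  by_contra h1
  push Not at h1
  have h2 : ∏ i, f i = f i * ∏ k ∈ Finset.univ.erase i, f k :=
    (Finset.mul_prod_erase _ _ (Finset.mem_univ i)).symm
  have h3 : ∏ k ∈ Finset.univ.erase i, f k ≤ 1 := Finset.prod_le_one' fun k _ => h k
  rw [hp] at h2
  have h4 : f i * ∏ k ∈ Finset.univ.erase i, f k ≤ f i * 1 := mul_le_mul_right h3 _
  rw [← h2, mul_one] at h4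
  exact absurd h4 (not_le.2 h1)


end Pool.Agent.Lib.MP_1a91b9_nuT.TG
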